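import Pool.Agent.Q24.ML.Iff
import Pool.Agent.Q5.NS.Gal

/-!
# One field with a given group, and normal subgroups
-/

set_option autoImplicit false

open Pool.Agent.Q24.ML (Real)

namespace Pool.Agent.Q24.MS

/-- The field `L` has degree `d` over `K`, and the Galois group, acting on the embeddings, is `G` up
to numbering. -/
def HasGroup (K : Type) [Field K] (d : ℕ) (G : Subgroup (Equiv.Perm (Fin d)))
    (L : IntermediateField K (AlgebraicClosure K)) : Prop :=
  Module.finrank K L = d ∧
    ∃ e : (L →ₐ[K] AlgebraicClosure K) ≃ Fin d, ∀ π : Equiv.Perm (Fin d),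
      π ∈ G ↔ ∃ σ : AlgebraicClosure K ≃ₐ[K] AlgebraicClosure K,
        ∀ φ : L →ₐ[K] AlgebraicClosure K, e (σ.toAlgHom.comp φ) = π (e φ)

theorem real_of_hasGroup (K : Type) [Field K] [CharZero K] {d : ℕ}
    {G : Subgroup (Equiv.Perm (Fin d))} {L : IntermediateField K (AlgebraicClosure K)}
    (h : HasGroup K d G L) : Real K G := by
  obtain ⟨h1, e, he⟩ := h
  let Ω := AlgebraicClosure K
  have hd : 0 < d := Fin.pos (e L.val)
  have hfd : FiniteDimensional K L := Module.finite_of_finrank_pos (by omega)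
  let act : (Ω ≃ₐ[K] Ω) →* Equiv.Perm (L →ₐ[K] Ω) :=
    { toFun := fun σ =>
        { toFun := fun φ => σ.toAlgHom.comp φ
          invFun := fun φ => σ.symm.toAlgHom.comp φ
          left_inv := fun φ => by ext x; simp
          right_inv := fun φ => by ext x; simp }
      map_one' := by ext φ x; rfl
      map_mul' := fun σ τ => by ext φ x; rfl }
  let ρ : (Ω ≃ₐ[K] Ω) →* Equiv.Perm (Fin d) := e.permCongrHom.toMonoidHom.comp act
  have hρ : ρ.range = G := by
    ext π
    rw [MonoidHom.mem_range, he]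
    refine exists_congr fun σ => ?_
    constructor
    · rintro rfl φ
      simp [ρ, act, Equiv.permCongrHom]
    · intro h
      ext i
      have h2 := h (e.symm i)
      rw [e.apply_symm_apply] at h2
      rw [← h2]
      simp [ρ, act, Equiv.permCongrHom]
  let M : IntermediateField K Ω := IntermediateField.normalClosure K L Ω
  have hM : Normal K M := normalClosure.normal K L Ω
  have hMf : FiniteDimensional K M := normalClosure.is_finiteDimensional K L Ω
  have hMg : IsGalois K M := IsGalois.mk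
  let r : (Ω ≃ₐ[K] Ω) →* (M ≃ₐ[K] M) := AlgEquiv.restrictNormalHom M
  have hr : Function.Surjective r := AlgEquiv.restrictNormalHom_surjective Ω
  have hker : ρ.ker = r.ker := by
    ext σ
    have h2 : σ ∈ r.ker ↔ ∀ x ∈ M, σ x = x := by
      rw [IntermediateField.restrictNormalHom_ker, IntermediateField.mem_fixingSubgroup_iff]
    have h3 : σ ∈ ρ.ker ↔ ∀ φ : L →ₐ[K] Ω, ∀ y, σ (φ y) = φ y := by
      rw [MonoidHom.mem_ker]
      constructor
      · intro h φ y
        have h4 : act σ = 1 := by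
          have h5 : e.permCongrHom (act σ) = 1 := h
          exact (map_eq_one_iff _ e.permCongrHom.injective).1 h5
        have h6 := congrArg (fun p => p φ) h4
        exact congrArg (fun ψ : L →ₐ[K] Ω => ψ y) h6
      · intro h
        have h4 : act σ = 1 := by
          ext φ y
          exact h φ y
        change e.permCongrHom (act σ) = 1
        rw [h4, map_one]
    rw [h2, h3]
    constructor
    · intro h x hx
      have h4 : M ≤ IntermediateField.fixedField (Subgroup.zpowers σ) := by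
        refine (normalClosure_le_iff).2 fun φ => ?_
        rintro _ ⟨y, rfl⟩
        rw [IntermediateField.mem_fixedField_iff]
        intro τ hτ
        obtain ⟨k, rfl⟩ := Subgroup.mem_zpowers_iff.1 hτ
        have h5 : σ ∈ MulAction.stabilizer (Ω ≃ₐ[K] Ω) (φ y) := h φ y
        exact Subgroup.zpow_mem _ h5 k
      exact (IntermediateField.mem_fixedField_iff _ _).1 (h4 hx) σ (Subgroup.mem_zpowers σ)
    · intro h φ y
      exact h _ (AlgHom.fieldRange_le_normalClosure φ ⟨y, rfl⟩)
  have iso : G ≃* (M ≃ₐ[K] M) :=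
    ((MulEquiv.subgroupCongr hρ.symm).trans (QuotientGroup.quotientKerEquivRange ρ).symm).trans
      ((QuotientGroup.quotientMulEquivOfEq hker).trans
        (QuotientGroup.quotientKerEquivOfSurjective r hr))
  exact ⟨M, inferInstance, inferInstance, hMf, hMg, ⟨iso⟩⟩

/-- For each finite group `X` there is a finite group `Γ` such that each group with a normal subgroup
isomorphic to `Γ` has a quotient isomorphic to `X`. -/
theorem exists_gamma (X : Type) [Group X] [Finite X] : ∃ (Γ : Type) (_ : Group Γ), Finite Γ ∧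
    ∀ (Q : Type) [Group Q] (N : Subgroup Q), N.Normal → Nonempty (Γ ≃* N) →
      ∃ f : Q →* X, Function.Surjective f := by
  obtain ⟨Γ, gΓ, π, θ, hΓ, hπ, hθ, -⟩ := Pool.Agent.Q5.NS.exists_cover X 0
  refine ⟨Γ, gΓ, hΓ, fun Q _ N hN ⟨e⟩ => ?_⟩
  obtain ⟨f, hf, -⟩ := Pool.Agent.Q5.NS.exists_hom π θ hπ hθ N e
  refine ⟨f, fun g => ?_⟩
  obtain ⟨x, -, hx⟩ := hf g
  exact ⟨x, hx⟩

/-- `Γ` is a normal subgroup of a quotient of `G`. -/
def NormalInQuotient (Γ G : Type) [Group Γ] [Group G] : Prop :=
  ∃ M : Subgroup G, ∃ _ : M.Normal, ∃ N : Subgroup (G ⧸ M), N.Normal ∧ Nonempty (Γ ≃* N)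

theorem NormalInQuotient.of_surj {Γ G : Type} [Group Γ] [Group G] (f : G →* Γ)
    (hf : Function.Surjective f) : NormalInQuotient Γ G :=
  ⟨f.ker, inferInstance, ⊤, inferInstance,
    ⟨(QuotientGroup.quotientKerEquivOfSurjective f hf).symm.trans Subgroup.topEquiv.symm⟩⟩

theorem real_of_normal {X : Type} [Group X] {Γ : Type} [Group Γ]
    (h : ∀ (Q : Type) [Group Q] (N : Subgroup Q), N.Normal → Nonempty (Γ ≃* N) →
      ∃ f : Q →* X, Function.Surjective f) {K : Type} [Field K] {G : Type} [Group G]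
    (hG : NormalInQuotient Γ G) (hK : Real K G) : Real K X := by
  obtain ⟨M, hM, N, hN, e⟩ := hG
  obtain ⟨f, hf⟩ := h (G ⧸ M) N hN e
  exact (hK.quot M).of_surj f hf

/-- The quotient `C₂ ≀ H → H`. -/
theorem exists_proj {H : Type} [Group H] {d : ℕ} {G : Subgroup (Equiv.Perm (Fin d))}
    (hG : ∃ f : Fin d ≃ H × Bool, ∀ π : Equiv.Perm (Fin d), π ∈ G ↔
      ∃ h : H, ∀ i, (f (π i)).1 = h * (f i).1) :
    ∃ p : G →* H, Function.Surjective p := by
  obtain ⟨f, hf⟩ := hG
  have h1 : ∀ π : G, ∃ h : H, ∀ i, (f (π.1 i)).1 = h * (f i).1 := fun π => (hf π).1 π.2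
  choose p hp using h1
  have huniq : ∀ (π : G) (h : H), (∀ i, (f (π.1 i)).1 = h * (f i).1) → p π = h := by
    intro π h hh
    have h2 := hp π (f.symm (1, false))
    rw [hh (f.symm (1, false)), f.apply_symm_apply] at h2
    simpa using h2.symm
  refine ⟨MonoidHom.mk' p fun π ρ => huniq _ _ fun i => ?_, fun h => ?_⟩
  · change (f (π.1 (ρ.1 i))).1 = _
    rw [hp π, hp ρ, mul_assoc]
  · let t : Equiv.Perm (H × Bool) := (Equiv.mulLeft h).prodCongr (Equiv.refl _)
    have hm : f.trans (t.trans f.symm) ∈ G := (hf _).2 ⟨h, fun i => by simp [t]⟩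
    exact ⟨⟨_, hm⟩, huniq _ _ fun i => by simp [t]⟩

end Pool.Agent.Q24.MS
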